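import Pool.Agent.Q174.AF.Cor

/-!
# The log-rank conjecture for AND functions (and for all functions of a meet)

For every `n` and every `f : {0,1}^n → {0,1}` the AND function `F(x,y) = f(x ∧ y)` of real rank `r`
has a deterministic protocol with `O(log^6 r)` bits. There is no dependence on `n`.

The general form: let `X` be a finite set with a map `e : X → {0,1}^n` whose image is closed under
the coordinatewise AND, and let every column `F(·, y)` of `F : X × Y → {0,1}` be a real affine
function of `e(x)`. Then `D(F) ≤ 1620 ⌈log₂ (n+3)⌉^6 + 1`. (For `e(x) = (F(x,b))_b` with `b` in a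
spanning set `B` of columns, `n = |B|`: the log-rank conjecture for matrices whose rows are closed
under AND on a column basis.) If `X` is a meet semilattice and the set of columns is closed under
`F(·, y) ↦ F(· ⊓ a, y)`, then the number of features needed is the rank, and
`D(F) ≤ 1620 ⌈log₂ (r+2)⌉^6 + 1`. AND functions are a special case.

Proof. Fix a base `a`, and group the monomials `s` by `c = a ∪ s`. Few active classes are harmless.
If many classes are active, then a counting argument gives either a question of degree at most
`k = O(log² r)` in the entries of a row or of a column whose positive answer reduces the number of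
active classes by a factor `1 - 1/(8k)`, or `k` active classes which are compatible and private. The
second case gives a Boolean function in `k` variables with at most `r` monomials which is sensitive
at the point `0` in all `k` variables; by the Markov inequality at the end point of an interval,
`k ≤ 8 ⌈log₂ r⌉²`. Negative answers are free: they make the space of polynomials of degree `k` on the
remaining rows or columns smaller, and this space has dimension at most `(r+1)^k`.
-/

set_option autoImplicit false

namespace Pool.Agent.Results.MP_e5d384_lc.AndFunctions

open Finset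

/-- `F` has a deterministic two-party protocol with exactly `c` bits. (Protocols exactly as in the
frozen statement S15531: `t` is the transcript so far, `owner t` says who speaks, and the answer is
a function of the transcript.) -/
def HasProtocol {X Y : Type} (F : X → Y → Bool) (c : ℕ) : Prop :=
  ∃ (owner : List Bool → Bool) (a : List Bool → X → Bool)
      (b : List Bool → Y → Bool) (out : List Bool → Bool),
      ∀ x y, out (Nat.iterate
        (fun t : List Bool => t ++ [if owner t then a t x else b t y]) c []) = F x y

/-- the real rank of the 0/1 matrix of `F` -/
noncomputable def rank {X Y : Type} [Fintype Y] (F : X → Y → Bool) : ℕ :=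
  (Matrix.of fun (x : X) (y : Y) => if F x y then (1 : ℝ) else 0).rank

lemma hasProtocol_of {X Y : Type} {F : X → Y → Bool} {c : ℕ}
    (h : Pool.Agent.Q174.TD.Prot F c Set.univ Set.univ) : HasProtocol F c := by
  obtain ⟨owner, a, b, out, h⟩ := h.protocol
  exact ⟨owner, a, b, out, fun x y => h x (Set.mem_univ _) y (Set.mem_univ _)⟩

theorem result :
    -- (1) AND functions
    (∀ (n : ℕ) (f : (Fin n → Bool) → Bool),
      HasProtocol (fun x y : Fin n → Bool => f fun i => x i && y i)
        (1620 * (Nat.clog 2
          (rank (fun x y : Fin n → Bool => f fun i => x i && y i) + 2)) ^ 6 + 1)) ∧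
    -- (2) rows form a meet semilattice, columns closed under `F (·, y) ↦ F (· ⊓ a, y)`
    (∀ (X Y : Type) [SemilatticeInf X] [Fintype X] [Fintype Y] (F : X → Y → Bool),
      (∀ (a : X) (y : Y), ∃ y', ∀ x, F x y' = F (x ⊓ a) y) →
      HasProtocol F (1620 * (Nat.clog 2 (rank F + 2)) ^ 6 + 1)) ∧
    -- (3) columns affine in 0/1 features which are closed under AND
    (∀ (X Y : Type) [Fintype X] [Fintype Y] (F : X → Y → Bool) (n : ℕ) (e : X → Fin n → Bool),
      (∀ x x', ∃ x'', ∀ i, e x'' i = (e x i && e x' i)) →
      (∀ y, ∃ (c : ℝ) (w : Fin n → ℝ), ∀ x,
        (if F x y then (1 : ℝ) else 0) = c + ∑ i, if e x i then w i else 0) →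
      HasProtocol F (1620 * (Nat.clog 2 (n + 3)) ^ 6 + 1)) := by
  refine ⟨?_, ?_, ?_⟩
  · intro n f
    refine hasProtocol_of (Pool.Agent.Q174.AF.closed_prot
      (F := fun x y : Fin n → Bool => f fun i => x i && y i) ?_)
    intro a y
    have h : ∀ x : Fin n → Bool, (fun i => x i && (a i && y i)) =
        fun i => (x i && a i) && y i := fun x => funext fun i => (Bool.and_assoc _ _ _).symm
    exact ⟨fun i => a i && y i, fun x => congrArg f (h x)⟩
  · intro X Y _ _ _ F hF
    exact hasProtocol_of (Pool.Agent.Q174.AF.closed_prot hF)
  · intro X Y _ _ F n e he hF
    exact hasProtocol_of (Pool.Agent.Q174.AF.feat_prot e he F hF)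

end Pool.Agent.Results.MP_e5d384_lc.AndFunctions
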