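import Pool.Agent.Q123.LR.Proto

/-!
# The log-rank conjecture for Boolean matrices whose rows are closed under a Boolean operation

Let `X`, `Y` be arbitrary finite sets and `F : X × Y → {0,1}`.  The rows of `F` are the words
`(F x y)_{y ∈ Y}`, `x ∈ X`.  Let `f` be any Boolean operation in `k` variables which depends on at
least two of its variables (`¬ Unary f`), for instance the conjunction, the disjunction, the sum
modulo two, the majority of three bits, an implication or a threshold function.  Suppose that the
set of the rows of `F` is closed under `f`, applied coordinatewise, or that the set of its columns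
is.  Then

* `F` has a deterministic two-party protocol with at most `log₂ rank(M_F) + 5` bits (protocols as
in the frozen statement S15531; by the theorem of Mehlhorn and Schmidt at least `log₂ rank(M_F)`
bits are always necessary, so that this is optimal up to the additive constant);
* if the rows are closed, `F` has at most `2 rank(M_F) + 4` different columns.

The proof treats the minimal operations: if the rows form a semilattice, possibly after the
negation of some columns, then different columns are linearly independent (Möbius inversion); if
they form an affine space over the field with two elements, then different signed columns are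
orthogonal.
-/

namespace Pool.Agent.Results.MP_e5d384_lc.ClosedRows

open Q123.LR

theorem result (X Y : Type) [Fintype X] [Fintype Y] (k : ℕ) (f : (Fin k → ZMod 2) → ZMod 2)
    (hf : ¬ Unary f) (F : X → Y → Bool) :
    (RowsClosed f F →
      (Set.range (fun y => fun x => F x y)).ncard ≤
        2 * (Matrix.of (fun x y => if F x y then (1 : ℝ) else 0)).rank + 4) ∧
    ((RowsClosed f F ∨ RowsClosed f (fun y x => F x y)) →
      ∃ (c : ℕ) (owner : List Bool → Bool) (a : List Bool → X → Bool) (b : List Bool → Y → Bool)
        (out : List Bool → Bool),
        (∀ x y, out (Nat.iterate
          (fun t : List Bool => t ++ [if owner t then a t x else b t y]) c []) = F x y) ∧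
        (c : ℝ) ≤ Real.logb 2
          ((Matrix.of (fun x y => if F x y then (1 : ℝ) else 0)).rank : ℝ) + 5) := by
  classical
  refine ⟨fun h => ?_, ?_⟩
  · have h1 := columns_le hf F h
    rw [← Set.ncard_coe_finset, Finset.coe_image, Finset.coe_univ, Set.image_univ] at h1
    exact h1
  rintro (h | h)
  · obtain ⟨owner, a, b, out, hp⟩ := protocol_of_columns F _ (columns_le hf F h)
    exact ⟨_, owner, a, b, out, hp, clog_bound _⟩
  · have h1 := columns_le hf (fun y x => F x y) h
    have h2 : (mat (fun y x => F x y)).rank =
        (Matrix.of (fun x y => if F x y then (1 : ℝ) else 0)).rank := by
      rw [← Matrix.rank_transpose]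
      rfl
    rw [h2] at h1
    obtain ⟨owner, a, b, out, hp⟩ := (protocol_of_columns (fun y x => F x y) _ h1).swap
    exact ⟨_, owner, a, b, out, hp, clog_bound _⟩

end Pool.Agent.Results.MP_e5d384_lc.ClosedRows
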