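import Pool.Agent.Q174.IS.Rank

/-!
# The log-rank conjecture for functions of a product in an inverse semigroup with trivial subgroups

Let `M` be a finite inverse semigroup (every `x` has exactly one `y` with `x y x = x`, `y x y = y`)
all of whose subgroups are trivial, for instance a semilattice, the semigroup of all order preserving
partial bijections of a finite chain, or a Brandt semigroup over the trivial group. For every
`f : M → {0,1}` the function `F(x,y) = f(x y)` of real rank `r` has a deterministic protocol with
`1620 ⌈log₂ (r^2 + 3)⌉^6 + 1` bits.

Proof. As all subgroups are trivial, `M` is a meet semilattice for the natural order: the meet of `x`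
and `a` is `x (x⁻¹ a)^n` for an idempotent power. Write `f z = ∑_{s ≤ z} c s`. The map `t ↦ t y` is a
bijection from `{t ≤ x, t⁻¹ t ≤ y y⁻¹}` to `{s ≤ x y}`, so that `F(x,y)` is a linear function of the
features `[t ≤ x]`, where `t` runs over the `D`-classes which meet the support of `c`. The features
are closed under AND. If `e` idempotents lie in these `D`-classes, there are at most `e ^ 2` features
and the rank is at least `e` (a triangular submatrix). Now part (3) of `AndFunctions` applies.

For regular semigroups with trivial subgroups the same bound would be the full conjecture: each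
Boolean matrix is of the form `f(x y)` on a rectangular band, up to repeated rows and columns.
-/

set_option autoImplicit false

namespace Pool.Agent.Results.MP_e5d384_lc.InverseSemigroups

open Finset

/-- `F` has a deterministic two-party protocol with exactly `c` bits. (Protocols exactly as in the
frozen statement S15531: `t` is the transcript so far, `owner t` says who speaks, and the answer is
a function of the transcript.) -/
def HasProtocol {X Y : Type} (F : X → Y → Bool) (c : ℕ) : Prop :=
  ∃ (owner : List Bool → Bool) (a : List Bool → X → Bool)
      (b : List Bool → Y → Bool) (out : List Bool → Bool),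
      ∀ x y, out (Nat.iterate
        (fun t : List Bool => t ++ [if owner t then a t x else b t y]) c []) = F x y

/-- the real rank of the 0/1 matrix of `F` -/
noncomputable def rank {X Y : Type} [Fintype Y] (F : X → Y → Bool) : ℕ :=
  (Matrix.of fun (x : X) (y : Y) => if F x y then (1 : ℝ) else 0).rank

/-- each element of the semigroup `M` has exactly one generalized inverse: `M` is an inverse
semigroup -/
def IsInverse (M : Type) [Semigroup M] : Prop := ∀ x : M, ∃! y, x * y * x = x ∧ y * x * y = y

/-- all subgroups of the inverse semigroup `M` are trivial: an element which commutes with an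
inverse of it is idempotent -/
def TrivialSubgroups (M : Type) [Semigroup M] : Prop :=
  ∀ x y : M, x * y * x = x → y * x * y = y → x * y = y * x → x * x = x

theorem result :
    -- (1) inverse semigroups with trivial subgroups
    (∀ (M : Type) [Semigroup M] [Fintype M], IsInverse M → TrivialSubgroups M →
      ∀ f : M → Bool, HasProtocol (fun x y => f (x * y))
        (1620 * (Nat.clog 2 ((rank fun x y => f (x * y)) ^ 2 + 3)) ^ 6 + 1)) ∧
    -- (2) the uniqueness of the inverses cannot be dropped
    (∀ b : ℕ → ℕ,
      (∀ (M : Type) [Semigroup M] [Fintype M], (∀ x y : M, x * y * x = x) →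
        ∀ f : M → Bool, HasProtocol (fun x y => f (x * y)) (b (rank fun x y => f (x * y)))) →
      ∀ (X Y : Type) [Fintype X] [Fintype Y] (F : X → Y → Bool), HasProtocol F (b (rank F))) := by
  classical
  refine ⟨?_, ?_⟩
  · intro M S _ hM hT f
    letI : Pool.Agent.Q174.IS.InvSemi M := Pool.Agent.Q174.IS.mkInv (S := S) hM
    have h := Pool.Agent.Q174.IS.mul_prot (M := M) hT f
    obtain ⟨owner, a, b, out, h⟩ := h.protocol
    exact ⟨owner, a, b, out, fun x y => h x (Set.mem_univ _) y (Set.mem_univ _)⟩
  · intro b hb X Y _ _ F
    rcases isEmpty_or_nonempty X with hX | ⟨⟨x₀⟩⟩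
    · exact ⟨fun _ => true, fun _ _ => true, fun _ _ => true, fun _ => true,
        fun x => (hX.false x).elim⟩
    rcases isEmpty_or_nonempty Y with hY | ⟨⟨y₀⟩⟩
    · exact ⟨fun _ => true, fun _ _ => true, fun _ _ => true, fun _ => true,
        fun _ y => (hY.false y).elim⟩
    letI : Semigroup (X × Y) := { mul := fun p q => (p.1, q.2), mul_assoc := fun p q s => rfl }
    have hmul : ∀ p q : X × Y, p * q = (p.1, q.2) := fun p q => rfl
    obtain ⟨owner, α, β, out, h⟩ := hb (X × Y) (fun p q => rfl) (fun p => F p.1 p.2)
    have hr : (rank fun p q : X × Y => F (p * q).1 (p * q).2) = rank F := by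
      unfold rank
      apply le_antisymm
      · have := Matrix.rank_submatrix_le
          (Matrix.of fun (x : X) (y : Y) => if F x y then (1 : ℝ) else 0)
          (Prod.fst : X × Y → X) (Prod.snd : X × Y → Y)
        exact this
      · have := Matrix.rank_submatrix_le
          (Matrix.of fun (p q : X × Y) => if F (p * q).1 (p * q).2 then (1 : ℝ) else 0)
          (fun x : X => (x, y₀)) (fun y : Y => (x₀, y))
        exact this
    rw [hr] at h
    exact ⟨owner, fun t x => α t (x, y₀), fun t y => β t (x₀, y), out,
      fun x y => h (x, y₀) (x₀, y)⟩

end Pool.Agent.Results.MP_e5d384_lc.InverseSemigroups
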