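import Pool.Agent.Q174.TD.Cor

/-!
# Log-rank: elimination by low-degree polynomials, recursive teaching, rank reduction without density

Let `X`, `Y` be finite sets, `F : X × Y → {0,1}`, let `r` be the rank of the matrix of `F` over a
field `K` (`K = ℝ` for the log-rank conjecture) and `Φ_k(r) = ∑ i ≤ k, (r choose i) ≤ (r+1)^k`.
The functions on `X` which are polynomials of degree at most `k` in the columns of `F` form a space
of dimension at most `Φ_k(r)`: the columns are idempotent and a basis of `r` columns is enough.

Consider decision trees in which the row `x` or the column `y` may be asked if a polynomial of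
degree at most `k` in the entries of the row (column) is zero, with at most `m` answers `nonzero` on
each path but with ANY number of answers `zero`. As each answer `zero` makes the space of
polynomials on the remaining rows (columns) smaller, a list of `Φ_k(r)` questions without a
positive answer is impossible, and the tree gives a protocol with `2 m ⌈log₂ Φ_k(r)⌉ + 1` bits.

Applications: every rectangle contains a row or a column with a short teaching set; the rows are
closures of few columns for an arbitrary closure operator; in every rectangle the rank is halved on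
some nonempty (however small) set of rows or columns cut out by a polynomial of low degree.
-/

set_option autoImplicit false

namespace Pool.Agent.Results.MP_e5d384_lc.TeachingElimination

open Finset

/-- `F` has a deterministic two-party protocol with exactly `c` bits. (Protocols exactly as in the
frozen statement S15531: `t` is the transcript so far, `owner t` says who speaks, and the answer is
a function of the transcript.) -/
def HasProtocol {X Y : Type} (F : X → Y → Bool) (c : ℕ) : Prop :=
  ∃ (owner : List Bool → Bool) (a : List Bool → X → Bool)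
      (b : List Bool → Y → Bool) (out : List Bool → Bool),
      ∀ x y, out (Nat.iterate
        (fun t : List Bool => t ++ [if owner t then a t x else b t y]) c []) = F x y

/-- the rank over `K` of the 0/1 matrix of `F` -/
noncomputable def rank (K : Type) [Field K] {X Y : Type} [Fintype Y] (F : X → Y → Bool) : ℕ :=
  (Matrix.of fun (x : X) (y : Y) => if F x y then (1 : K) else 0).rank

open Classical in
/-- the rank over `K` of the part `A × B` of the matrix (the other entries are replaced by `0`) -/
noncomputable def rankOn (K : Type) [Field K] {X Y : Type} [Fintype Y] (F : X → Y → Bool)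
    (A : Set X) (B : Set Y) : ℕ :=
  (Matrix.of fun (x : X) (y : Y) => if x ∈ A ∧ y ∈ B ∧ F x y = true then (1 : K) else 0).rank

/-- `Φ_k(r) = ∑ i ≤ k, (r choose i)` -/
def Phi (k r : ℕ) : ℕ := ∑ i ∈ range (k + 1), r.choose i

/-- `φ : X → K` is a polynomial of degree at most `k` in the columns of `F`: a linear combination of
products of at most `k` columns -/
def IsPoly (K : Type) [Field K] {X Y : Type} (F : X → Y → Bool) (k : ℕ) (φ : X → K) : Prop :=
  φ ∈ Submodule.span K {f : X → K | ∃ T : Finset Y, T.card ≤ k ∧
    f = fun x => ∏ y ∈ T, if F x y then (1 : K) else 0}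

/-- The rectangle `A × B` can be decomposed by questions of degree at most `k`, with at most `m`
answers `nonzero` on each path (and any number of answers `zero`), into rectangles in which all rows
are equal or all columns are equal. -/
inductive Decomposable (K : Type) [Field K] {X Y : Type} (F : X → Y → Bool) (k : ℕ) :
    ℕ → Set X → Set Y → Prop
  | rows (m : ℕ) (A : Set X) (B : Set Y) (h : ∀ x ∈ A, ∀ x' ∈ A, ∀ y ∈ B, F x y = F x' y) :
      Decomposable K F k m A B
  | cols (m : ℕ) (A : Set X) (B : Set Y) (h : ∀ x ∈ A, ∀ y ∈ B, ∀ y' ∈ B, F x y = F x y') :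
      Decomposable K F k m A B
  | askRow (m : ℕ) (A : Set X) (B : Set Y) (φ : X → K) (hφ : IsPoly K F k φ) :
      Decomposable K F k m (A ∩ {x | φ x ≠ 0}) B →
      Decomposable K F k (m + 1) (A ∩ {x | φ x = 0}) B → Decomposable K F k (m + 1) A B
  | askCol (m : ℕ) (A : Set X) (B : Set Y) (ψ : Y → K) (hψ : IsPoly K (fun y x => F x y) k ψ) :
      Decomposable K F k m A (B ∩ {y | ψ y ≠ 0}) →
      Decomposable K F k (m + 1) A (B ∩ {y | ψ y = 0}) → Decomposable K F k (m + 1) A B

lemma dec_of {K : Type} [Field K] {X Y : Type} {F : X → Y → Bool} {k m : ℕ} {A : Set X}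
    {B : Set Y} (h : Decomposable K F k m A B) : Pool.Agent.Q174.TD.Dec K F k m A B := by
  induction h with
  | rows m A B h => exact .rows m A B h
  | cols m A B h => exact .cols m A B h
  | askRow m A B φ hφ _ _ ih₁ ih₂ => exact .row m A B φ hφ ih₁ ih₂
  | askCol m A B ψ hψ _ _ ih₁ ih₂ => exact .col m A B ψ hψ ih₁ ih₂

lemma hasProtocol_of {X Y : Type} {F : X → Y → Bool} {c : ℕ}
    (h : Pool.Agent.Q174.TD.Prot F c Set.univ Set.univ) : HasProtocol F c := by
  obtain ⟨owner, a, b, out, h⟩ := h.protocol
  exact ⟨owner, a, b, out, fun x y => h x (Set.mem_univ _) y (Set.mem_univ _)⟩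

theorem result :
    -- (1) decomposable matrices
    (∀ (K : Type) [Field K] (X Y : Type) [Fintype X] [Fintype Y] (F : X → Y → Bool) (k m : ℕ),
      Decomposable K F k m Set.univ Set.univ →
      HasProtocol F (2 * m * Nat.clog 2 (Phi k (rank K F)) + 1)) ∧
    (∀ k r : ℕ, Nat.clog 2 (Phi k r) ≤ k * Nat.clog 2 (r + 1)) ∧
    -- (2) every rectangle has a row or a column with a teaching set of at most `k` lines
    (∀ (K : Type) [Field K] (X Y : Type) [Fintype X] [Fintype Y] (F : X → Y → Bool) (k : ℕ),
      (∀ (A : Set X) (B : Set Y), A.Nonempty → B.Nonempty →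
        (∃ x ∈ A, ∃ T : Finset Y, T.card ≤ k ∧
          ∀ x' ∈ A, (∀ y ∈ T, F x' y = F x y) → ∀ y ∈ B, F x' y = F x y) ∨
        (∃ y ∈ B, ∃ T : Finset X, T.card ≤ k ∧
          ∀ y' ∈ B, (∀ x ∈ T, F x y' = F x y) → ∀ x ∈ A, F x y' = F x y)) →
      HasProtocol F (2 * Nat.clog 2 (Phi k (rank K F)) + 1)) ∧
    -- (3) the number of distinct rows and the recursive teaching dimension
    (∀ (K : Type) [Field K] (X Y : Type) [Fintype X] [Fintype Y] (F : X → Y → Bool) (k : ℕ),
      (∀ A : Set X, A.Nonempty → ∃ x ∈ A, ∃ T : Finset Y, T.card ≤ k ∧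
        ∀ x' ∈ A, (∀ y ∈ T, F x' y = F x y) → F x' = F x) →
      (Set.range F).ncard ≤ Phi k (rank K F)) ∧
    (∀ (K : Type) [Field K] (k r : ℕ), ∃ (X : Type) (_ : Fintype X) (F : X → Fin r → Bool),
      (∀ A : Set X, A.Nonempty → ∃ x ∈ A, ∃ T : Finset (Fin r), T.card ≤ k ∧
        ∀ x' ∈ A, (∀ y ∈ T, F x' y = F x y) → F x' = F x) ∧
      rank K F ≤ r ∧ (Set.range F).ncard = Phi k r) ∧
    -- (4) rows which are closures of at most `k` columns
    (∀ (K : Type) [Field K] (X Y : Type) [Fintype X] [Fintype Y] (F : X → Y → Bool) (k : ℕ)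
      (c : ClosureOperator (Set Y)),
      (∀ x, ∃ T : Finset Y, T.card ≤ k ∧ {y | F x y = true} = c (T : Set Y)) →
      (Set.range F).ncard ≤ Phi k (rank K F)) ∧
    -- (5) reduction of the rank on nonempty sets cut out by polynomials of degree at most `k`
    (∀ (K : Type) [Field K] (X Y : Type) [Fintype X] [Fintype Y] (F : X → Y → Bool) (k : ℕ),
      1 ≤ k →
      (∀ (A : Set X) (B : Set Y), 2 ≤ rankOn K F A B →
        (∃ φ : X → K, IsPoly K F k φ ∧ (∃ x ∈ A, φ x ≠ 0) ∧
          2 * rankOn K F (A ∩ {x | φ x ≠ 0}) B ≤ rankOn K F A B) ∨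
        (∃ ψ : Y → K, IsPoly K (fun y x => F x y) k ψ ∧ (∃ y ∈ B, ψ y ≠ 0) ∧
          2 * rankOn K F A (B ∩ {y | ψ y ≠ 0}) ≤ rankOn K F A B)) →
      HasProtocol F
        (2 * (Nat.clog 2 (rank K F) + 1) * Nat.clog 2 (Phi k (rank K F)) + 1)) := by
  classical
  refine ⟨?_, Pool.Agent.Q174.TD.clog_Phi_le, ?_, ?_, ?_, ?_, ?_⟩
  · intro K _ X Y _ _ F k m h
    exact hasProtocol_of (dec_of h).prot
  · intro K _ X Y _ _ F k h
    have h1 := (Pool.Agent.Q174.TD.dec_of_teach K F k h Set.univ Set.univ).prot
    rw [mul_one] at h1
    exact hasProtocol_of h1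
  · intro K _ X Y _ _ F k h
    exact Pool.Agent.Q174.TD.rows_le K F k h
  · intro K _ k r
    refine ⟨{S : Finset (Fin r) // S.card ≤ k}, inferInstance, fun S j => decide (j ∈ S.1),
      ?_, ?_, ?_⟩
    · apply Pool.Agent.Q174.TD.teach_of_closure _ k id
      · exact fun S => le_rfl
      · exact fun S S' h => h
      · rintro ⟨S, hS⟩
        exact ⟨S, hS, by ext; simp⟩
    · unfold rank
      refine (Matrix.rank_le_card_width _).trans ?_
      rw [Fintype.card_fin]
    · have hinj : Function.Injective
          (fun (S : {S : Finset (Fin r) // S.card ≤ k}) (j : Fin r) => decide (j ∈ S.1)) := by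
        intro S S' h
        apply Subtype.ext
        ext j
        have := congrFun h j
        simpa using this
      rw [← Set.image_univ, Set.ncard_image_of_injective _ hinj, Set.ncard_univ,
        Nat.card_eq_fintype_card, Fintype.card_subtype]
      have h2 : (univ.filter fun T : Finset (Fin r) => T.card ≤ k) =
          (range (k + 1)).biUnion fun i => (univ : Finset (Fin r)).powersetCard i := by
        ext T
        simp only [mem_filter, mem_univ, true_and, mem_biUnion, mem_range, mem_powersetCard,
          subset_univ]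
        constructor
        · intro h
          exact ⟨T.card, by omega, rfl⟩
        · rintro ⟨i, hi, h1⟩
          omega
      rw [h2, card_biUnion]
      · unfold Phi
        exact Finset.sum_congr rfl fun i _ => by rw [card_powersetCard, card_univ, Fintype.card_fin]
      · intro i _ j _ hij
        exact disjoint_left.mpr fun T h1 h2 => hij
          ((mem_powersetCard.mp h1).2.symm.trans (mem_powersetCard.mp h2).2)
  · intro K _ X Y _ _ F k c h
    refine Pool.Agent.Q174.TD.rows_le K F k
      (Pool.Agent.Q174.TD.teach_of_closure F k c (fun S => c.le_closure S) ?_ h)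
    intro S S' hSS'
    exact (c.closure_min hSS' (c.isClosed_closure S'))
  · intro K _ X Y _ _ F k hk h
    have h1 : Pool.Agent.Q174.TD.rkOn K F Set.univ Set.univ ≤ 2 ^ Nat.clog 2 (rank K F) := by
      rw [Pool.Agent.Q174.TD.rkOn_univ]
      exact Nat.le_pow_clog (by norm_num) _
    refine hasProtocol_of
      (Pool.Agent.Q174.TD.dec_of_halving K F k hk ?_ _ Set.univ Set.univ h1).prot
    intro A B hAB
    have e : ∀ (A : Set X) (B : Set Y), Pool.Agent.Q174.TD.rkOn K F A B = rankOn K F A B := by
      intro A B
      unfold Pool.Agent.Q174.TD.rkOn rankOn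
      congr 1
    simp only [e] at hAB ⊢
    exact h A B hAB

end Pool.Agent.Results.MP_e5d384_lc.TeachingElimination
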